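import Mathlib

/-!
# Balanced residues of 3-adic integers

Helper file for MP_c1c973_an (cylindrical transformations over the 3-adic odometer).
`rr k x` is the representative of `x : ℤ_[3]` modulo `3^k` in `[-(3^k-1)/2, (3^k-1)/2]`.
-/

namespace Q67.CY

open PadicInt

instance neZero3 (k : ℕ) : NeZero (3 ^ k) := ⟨by positivity⟩

/-- balanced residue modulo `3^k`. -/
noncomputable def rr (k : ℕ) (x : ℤ_[3]) : ℤ := (toZModPow (p := 3) k x).valMinAbs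

lemma rr_spec (k : ℕ) (x : ℤ_[3]) : toZModPow (p := 3) k x = ((rr k x : ℤ) : ZMod (3 ^ k)) := by
  unfold rr
  rw [ZMod.coe_valMinAbs]

lemma odd_pow (k : ℕ) : Odd ((3 : ℤ) ^ k) := by
  apply Odd.pow
  decide

lemma two_abs_rr_lt (k : ℕ) (x : ℤ_[3]) : 2 * |rr k x| < 3 ^ k := by
  have h := (toZModPow (p := 3) k x).valMinAbs_mem_Ioc
  rw [Set.mem_Ioc] at h
  obtain ⟨h1, h2⟩ := h
  push_cast at h1 h2
  change _ < rr k x * 2 at h1
  change rr k x * 2 ≤ _ at h2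
  obtain ⟨c, hc⟩ := odd_pow k
  rcases abs_cases (rr k x) with ⟨ha, _⟩ | ⟨ha, _⟩ <;> rw [ha] <;> omega

lemma rr_eq_of (k : ℕ) (x : ℤ_[3]) (m : ℤ) (h : toZModPow (p := 3) k x = (m : ZMod (3 ^ k)))
    (hm : 2 * |m| < 3 ^ k) : rr k x = m := by
  unfold rr
  rw [ZMod.valMinAbs_spec]
  refine ⟨h, ?_⟩
  rw [Set.mem_Ioc]
  push_cast
  rcases abs_cases m with ⟨ha, _⟩ | ⟨ha, _⟩ <;> rw [ha] at hm <;> constructor <;> omega

lemma toZModPow_intCast (k : ℕ) (m : ℤ) :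
    toZModPow (p := 3) k (m : ℤ_[3]) = (m : ZMod (3 ^ k)) := by
  exact map_intCast _ m

lemma rr_int (k : ℕ) (m : ℤ) (hm : 2 * |m| < 3 ^ k) : rr k (m : ℤ_[3]) = m :=
  rr_eq_of k _ m (toZModPow_intCast k m) hm

lemma toZModPow_add_int (k : ℕ) (x : ℤ_[3]) (n : ℤ) :
    toZModPow (p := 3) k (x + n) = ((rr k x + n : ℤ) : ZMod (3 ^ k)) := by
  rw [map_add, rr_spec, toZModPow_intCast]
  push_cast
  rfl

lemma rr_add_of (k : ℕ) (x : ℤ_[3]) (n : ℤ) (h : 2 * |rr k x + n| < 3 ^ k) :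
    rr k (x + n) = rr k x + n :=
  rr_eq_of k _ _ (toZModPow_add_int k x n) h

lemma abs_rr_add_le (k : ℕ) (x : ℤ_[3]) (n : ℤ) : |rr k (x + n)| ≤ |rr k x + n| := by
  have h := ZMod.natAbs_min_of_le_div_two (3 ^ k) (rr k (x + n)) (rr k x + n)
    (by rw [← rr_spec, toZModPow_add_int]) (ZMod.natAbs_valMinAbs_le _)
  rw [Int.abs_eq_natAbs, Int.abs_eq_natAbs]
  exact_mod_cast h

lemma abs_rr_add_le' (k : ℕ) (x : ℤ_[3]) (n : ℤ) : |rr k (x + n)| ≤ |rr k x| + |n| :=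
  (abs_rr_add_le k x n).trans (abs_add_le _ _)

lemma abs_abs_rr_sub_le (k : ℕ) (x : ℤ_[3]) (n : ℤ) :
    |(|rr k (x + n)| - |rr k x|)| ≤ |n| := by
  have h1 := abs_rr_add_le' k x n
  have h2 := abs_rr_add_le' k (x + n) (-n)
  have e : x + (n : ℤ_[3]) + ((-n : ℤ) : ℤ_[3]) = x := by push_cast; ring
  rw [e, abs_neg] at h2
  rw [abs_le]
  constructor <;> linarith

lemma rr_add_of_dvd (k : ℕ) (x : ℤ_[3]) (n : ℤ) (h : (3 : ℤ) ^ k ∣ n) : rr k (x + n) = rr k x := by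
  apply rr_eq_of _ _ _ _ (two_abs_rr_lt k x)
  rw [map_add, toZModPow_intCast, ← rr_spec]
  have : (n : ZMod (3 ^ k)) = 0 := by
    rw [ZMod.intCast_zmod_eq_zero_iff_dvd]
    exact_mod_cast h
  rw [this, add_zero]

lemma rr_mod (k m : ℕ) (h : k ≤ m) (x : ℤ_[3]) : (3 : ℤ) ^ k ∣ rr m x - rr k x := by
  have h1 := cast_toZModPow (p := 3) k m h x
  rw [rr_spec m x, rr_spec k x] at h1
  have h2 : (((rr m x : ℤ) : ZMod (3 ^ m)).cast : ZMod (3 ^ k)) = ((rr m x : ℤ) : ZMod (3 ^ k)) := by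
    apply ZMod.cast_intCast (pow_dvd_pow 3 h)
  rw [h2] at h1
  have h3 : (((rr m x - rr k x : ℤ)) : ZMod (3 ^ k)) = 0 := by
    push_cast
    rw [h1, sub_self]
  rw [ZMod.intCast_zmod_eq_zero_iff_dvd] at h3
  exact_mod_cast h3

lemma rr_eq_of_small (k m : ℕ) (h : k ≤ m) (x : ℤ_[3]) (hs : 2 * |rr m x| < 3 ^ k) :
    rr k x = rr m x := by
  apply rr_eq_of _ _ _ _ hs
  have h2 := rr_mod k m h x
  rw [rr_spec k x]
  have h3 : (((rr m x - rr k x : ℤ)) : ZMod (3 ^ k)) = 0 := by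
    rw [ZMod.intCast_zmod_eq_zero_iff_dvd]
    exact_mod_cast h2
  push_cast at h3
  rw [sub_eq_zero] at h3
  exact h3.symm

/-- two 3-adic integers that are `3^{-k}`-close have the same residue modulo `3^k`. -/
lemma rr_eq_of_close (k : ℕ) (x y : ℤ_[3]) (h : ‖x - y‖ ≤ (3 : ℝ) ^ (-k : ℤ)) : rr k x = rr k y := by
  unfold rr
  congr 1
  have h1 := (norm_le_pow_iff_mem_span_pow (p := 3) (x - y) k).1 (by exact_mod_cast h)
  rw [← ker_toZModPow, RingHom.mem_ker, map_sub, sub_eq_zero] at h1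
  exact h1

lemma close_of_rr_eq (k : ℕ) (x y : ℤ_[3]) (h : rr k x = rr k y) : ‖x - y‖ ≤ (3 : ℝ) ^ (-k : ℤ) := by
  have h1 : toZModPow (p := 3) k x = toZModPow (p := 3) k y := by
    rw [rr_spec k x, rr_spec k y, h]
  have h2 := (norm_le_pow_iff_mem_span_pow (p := 3) (x - y) k).2
    (by rw [← ker_toZModPow, RingHom.mem_ker, map_sub, sub_eq_zero]; exact h1)
  exact_mod_cast h2

lemma continuous_rr (k : ℕ) : Continuous (rr k) := by
  apply IsLocallyConstant.continuous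
  rw [IsLocallyConstant.iff_eventually_eq]
  intro x
  rw [Metric.eventually_nhds_iff]
  refine ⟨(3 : ℝ) ^ (-k : ℤ), by positivity, fun y hy => ?_⟩
  apply rr_eq_of_close
  rw [dist_eq_norm] at hy
  exact hy.le

/-- integers have eventually constant balanced residues; conversely, eventually constant balanced
residues force an integer. -/
lemma eq_int_of_rr (x : ℤ_[3]) (m : ℤ) (h : ∀ K : ℕ, ∃ k ≥ K, rr k x = m) : x = m := by
  by_contra hne
  have hpos : 0 < ‖x - (m : ℤ_[3])‖ := by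
    rw [norm_pos_iff, sub_ne_zero]
    exact hne
  obtain ⟨K, hK⟩ := exists_pow_lt_of_lt_one hpos (by norm_num : (1 / 3 : ℝ) < 1)
  obtain ⟨J, hJ⟩ : ∃ J : ℕ, 2 * |m| < 3 ^ J := by
    refine ⟨(2 * |m|).toNat, ?_⟩
    have h1 : (2 * |m|).toNat < 3 ^ (2 * |m|).toNat := Nat.lt_pow_self (by norm_num)
    have h2 : ((2 * |m|).toNat : ℤ) = 2 * |m| := Int.toNat_of_nonneg (by positivity)
    have h3 : (((2 * |m|).toNat : ℕ) : ℤ) < ((3 ^ (2 * |m|).toNat : ℕ) : ℤ) := by exact_mod_cast h1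
    rw [h2] at h3
    push_cast at h3
    exact h3
  obtain ⟨k, hk, hkm⟩ := h (max K J)
  have hkK : K ≤ k := le_trans (le_max_left _ _) hk
  have hkJ : J ≤ k := le_trans (le_max_right _ _) hk
  have h2 : rr k (m : ℤ_[3]) = m := by
    apply rr_int
    exact hJ.trans_le (pow_le_pow_right₀ (by norm_num) hkJ)
  have h3 := close_of_rr_eq k x m (by rw [hkm, h2])
  have h4 : (3 : ℝ) ^ (-k : ℤ) ≤ (1 / 3 : ℝ) ^ K := by
    rw [zpow_neg, zpow_natCast, one_div, inv_pow]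
    apply inv_anti₀ (by positivity)
    exact pow_le_pow_right₀ (by norm_num) hkK
  linarith

/-- the element `-1/2` of `ℤ_[3]`. -/
lemma exists_xi : ∃ ξ : ℤ_[3], 2 * ξ = -1 := by
  have h : IsUnit ((2 : ℕ) : ℤ_[3]) := by
    rw [PadicInt.isUnit_iff]
    rw [PadicInt.norm_natCast_eq_one_iff]
    decide
  obtain ⟨u, hu⟩ := h
  refine ⟨-(↑u⁻¹ : ℤ_[3]), ?_⟩
  have : (2 : ℤ_[3]) = ↑u := by rw [hu]; norm_num
  rw [this]
  simp

/-- the centre of the symmetry. -/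
noncomputable def ξ : ℤ_[3] := Classical.choose exists_xi

lemma two_xi : 2 * ξ = -1 := Classical.choose_spec exists_xi

lemma rr_add_rr (k : ℕ) (x : ℤ_[3]) :
    2 * (rr k x + rr k (ξ - x)) + 1 = 3 ^ k ∨ 2 * (rr k x + rr k (ξ - x)) + 1 = -3 ^ k := by
  have h1 : (((2 * (rr k x + rr k (ξ - x)) + 1 : ℤ)) : ZMod (3 ^ k)) = 0 := by
    push_cast
    rw [← rr_spec, ← rr_spec, ← map_add]
    have : x + (ξ - x) = ξ := by ring
    rw [this]
    have h2 : toZModPow (p := 3) k (2 * ξ + 1) = 0 := by rw [two_xi]; simp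
    rw [map_add, map_mul, map_one, map_ofNat] at h2
    exact h2
  rw [ZMod.intCast_zmod_eq_zero_iff_dvd] at h1
  push_cast at h1
  obtain ⟨q, hq⟩ := h1
  obtain ⟨c, hc⟩ := odd_pow k
  have b1 := two_abs_rr_lt k x
  have b2 := two_abs_rr_lt k (ξ - x)
  have hpos : (0 : ℤ) < 3 ^ k := by positivity
  set a := rr k x
  set b := rr k (ξ - x)
  have ha := abs_le.1 (le_refl |a|)
  have hb := abs_le.1 (le_refl |b|)
  have hq1 : q < 2 := by
    by_contra hcon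
    push Not at hcon
    have : (3 : ℤ) ^ k * 2 ≤ 3 ^ k * q := by
      apply mul_le_mul_of_nonneg_left hcon hpos.le
    linarith [ha.2, hb.2]
  have hq2 : -2 < q := by
    by_contra hcon
    push Not at hcon
    have : (3 : ℤ) ^ k * q ≤ 3 ^ k * (-2) := by
      apply mul_le_mul_of_nonneg_left hcon hpos.le
    linarith [ha.1, hb.1]
  have hq3 : q = -1 ∨ q = 0 ∨ q = 1 := by omega
  rcases hq3 with h | h | h
  · right
    rw [hq, h]; ring
  · exfalso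
    rw [h] at hq
    omega
  · left
    rw [hq, h]; ring

/-- sum of absolute values of the residues of `x` and `ξ - x`. -/
lemma abs_rr_add_abs_rr (k : ℕ) (x : ℤ_[3]) :
    2 * (|rr k x| + |rr k (ξ - x)|) + 1 = 3 ^ k ∨ 2 * (|rr k x| + |rr k (ξ - x)|) - 1 = 3 ^ k := by
  have b1 := two_abs_rr_lt k x
  have b2 := two_abs_rr_lt k (ξ - x)
  rcases rr_add_rr k x with h | h
  · left
    rcases abs_cases (rr k x) with ⟨h1, h1'⟩ | ⟨h1, h1'⟩ <;>
    rcases abs_cases (rr k (ξ - x)) with ⟨h2, h2'⟩ | ⟨h2, h2'⟩ <;> rw [h1] at b1 ⊢ <;>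
      rw [h2] at b2 ⊢ <;> omega
  · right
    rcases abs_cases (rr k x) with ⟨h1, h1'⟩ | ⟨h1, h1'⟩ <;>
    rcases abs_cases (rr k (ξ - x)) with ⟨h2, h2'⟩ | ⟨h2, h2'⟩ <;> rw [h1] at b1 ⊢ <;>
      rw [h2] at b2 ⊢ <;> omega

/-- moving outwards by `m` on the side of `x`. -/
lemma shift (k : ℕ) (x : ℤ_[3]) : ∃ σ w : ℤ, (σ = 1 ∨ σ = -1) ∧ (2 * w + 1 = 3 ^ k ∨ 2 * w - 1 = 3 ^ k) ∧
    |rr k (ξ - x)| = w - |rr k x| ∧
    ∀ m : ℤ, 0 < |rr k x| + m → 2 * (|rr k x| + m) < 3 ^ k →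
      |rr k (x + ((σ * m : ℤ) : ℤ_[3]))| = |rr k x| + m ∧
      |rr k (ξ - (x + ((σ * m : ℤ) : ℤ_[3])))| = w - |rr k x| - m := by
  have b1 := two_abs_rr_lt k x
  have b2 := two_abs_rr_lt k (ξ - x)
  rcases le_or_gt 0 (rr k x) with h0 | h0
  · obtain ⟨w, hw⟩ : ∃ w : ℤ, 2 * w + 1 = 3 ^ k := by
      obtain ⟨c, hc⟩ := odd_pow k
      exact ⟨c, hc.symm⟩
    rw [abs_of_nonneg h0] at b1 ⊢
    refine ⟨1, w, Or.inl rfl, Or.inl hw, ?_, ?_⟩
    · rcases rr_add_rr k x with h | h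
      · rcases abs_cases (rr k (ξ - x)) with ⟨h2, h2'⟩ | ⟨h2, h2'⟩ <;> rw [h2] at b2 ⊢ <;> omega
      · rcases abs_cases (rr k (ξ - x)) with ⟨h2, h2'⟩ | ⟨h2, h2'⟩ <;> rw [h2] at b2 ⊢ <;> omega
    · intro m hm1 hm2
      rw [one_mul]
      have h3 : rr k (x + (m : ℤ_[3])) = rr k x + m := by
        apply rr_add_of
        rw [abs_of_pos hm1]; exact hm2
      refine ⟨by rw [h3, abs_of_pos hm1], ?_⟩
      have b3 := two_abs_rr_lt k (ξ - (x + (m : ℤ_[3])))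
      rcases rr_add_rr k (x + (m : ℤ_[3])) with h | h <;> rw [h3] at h <;>
      rcases abs_cases (rr k (ξ - (x + (m : ℤ_[3])))) with ⟨h2, h2'⟩ | ⟨h2, h2'⟩ <;>
        rw [h2] at b3 ⊢ <;> omega
  · obtain ⟨w, hw⟩ : ∃ w : ℤ, 2 * w - 1 = 3 ^ k := by
      obtain ⟨c, hc⟩ := odd_pow k
      exact ⟨c + 1, by rw [hc]; ring⟩
    rw [abs_of_neg h0] at b1 ⊢
    refine ⟨-1, w, Or.inr rfl, Or.inr hw, ?_, ?_⟩
    · rcases rr_add_rr k x with h | h
      · rcases abs_cases (rr k (ξ - x)) with ⟨h2, h2'⟩ | ⟨h2, h2'⟩ <;> rw [h2] at b2 ⊢ <;> omega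
      · rcases abs_cases (rr k (ξ - x)) with ⟨h2, h2'⟩ | ⟨h2, h2'⟩ <;> rw [h2] at b2 ⊢ <;> omega
    · intro m hm1 hm2
      have hneg : rr k x + -1 * m < 0 := by linarith
      have h3 : rr k (x + ((-1 * m : ℤ) : ℤ_[3])) = rr k x + -1 * m := by
        apply rr_add_of
        rw [abs_of_neg hneg]; linarith
      refine ⟨by rw [h3, abs_of_neg hneg]; ring, ?_⟩
      have b3 := two_abs_rr_lt k (ξ - (x + ((-1 * m : ℤ) : ℤ_[3])))
      rcases rr_add_rr k (x + ((-1 * m : ℤ) : ℤ_[3])) with h | h <;> rw [h3] at h <;>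
      rcases abs_cases (rr k (ξ - (x + ((-1 * m : ℤ) : ℤ_[3])))) with ⟨h2, h2'⟩ | ⟨h2, h2'⟩ <;>
        rw [h2] at b3 ⊢ <;> omega

attribute [irreducible] rr

end Q67.CY
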