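import Pool.Agent.Q67.CY.Basic

/-!
# The cocycle

Helper file for MP_c1c973_an.
-/

namespace Q67.CY

open PadicInt

/-- exponents. -/
def e (i : ℕ) : ℕ := 5 * i ^ 2 + 30 * i

lemma e_succ (i : ℕ) : e (i + 1) = e i + (10 * i + 35) := by
  unfold e; ring

lemma e_strictMono : StrictMono e := by
  apply strictMono_nat_of_lt_succ
  intro i
  rw [e_succ]; omega

/-- `N i = 3 ^ e i` as an integer. -/
def N (i : ℕ) : ℤ := 3 ^ e i

lemma N_pos (i : ℕ) : 0 < N i := by unfold N; positivity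

lemma N_zero : N 0 = 1 := by unfold N e; norm_num

lemma N_succ (i : ℕ) : N (i + 1) = N i * 3 ^ (10 * i + 35) := by
  unfold N
  rw [e_succ, pow_add]

lemma N_dvd {i j : ℕ} (h : i ≤ j) : N i ∣ N j := pow_dvd_pow 3 (e_strictMono.monotone h)

/-- residue at level `i`, modulo `N (i+1)`. -/
noncomputable def r (i : ℕ) (x : ℤ_[3]) : ℤ := rr (e (i + 1)) x

lemma two_abs_r_lt (i : ℕ) (x : ℤ_[3]) : 2 * |r i x| < N (i + 1) := two_abs_rr_lt _ _

/-- heights. -/
noncomputable def H (i : ℕ) : ℝ := 3 ^ (i + 3)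

lemma H_pos (i : ℕ) : 0 < H i := by unfold H; positivity

/-- `ε i = 3^{-i}`. -/
noncomputable def ε (i : ℕ) : ℝ := (1 / 3) ^ i

lemma ε_pos (i : ℕ) : 0 < ε i := by unfold ε; positivity

noncomputable def a (i : ℕ) : ℝ := 2 * H i / N i

noncomputable def δ (i : ℕ) : ℝ := ε i / N i

lemma NR_pos (i : ℕ) : (0 : ℝ) < N i := by exact_mod_cast N_pos i

lemma a_pos (i : ℕ) : 0 < a i := by
  unfold a
  have := H_pos i
  have := NR_pos i
  positivity

lemma δ_pos (i : ℕ) : 0 < δ i := by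
  unfold δ
  have := ε_pos i
  have := NR_pos i
  positivity

lemma δ_mul (i : ℕ) : δ i * N i = ε i := by
  unfold δ
  have := NR_pos i
  field_simp

lemma a_mul (i : ℕ) : a i * N i = 2 * H i := by
  unfold a
  have := NR_pos i
  field_simp

/-- the profile function. -/
noncomputable def ψ (i : ℕ) (t : ℝ) : ℝ := min (a i * t) (H i) + δ i * t

lemma ψ_mono (i : ℕ) {s t : ℝ} (h : s ≤ t) : ψ i s ≤ ψ i t := by
  unfold ψ
  have h1 := mul_le_mul_of_nonneg_left h (a_pos i).le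
  have h2 := mul_le_mul_of_nonneg_left h (δ_pos i).le
  have h3 : min (a i * s) (H i) ≤ min (a i * t) (H i) := min_le_min_right _ h1
  linarith

lemma ψ_lip (i : ℕ) (s t : ℝ) : |ψ i s - ψ i t| ≤ (a i + δ i) * |s - t| := by
  unfold ψ
  have h1 : |min (a i * s) (H i) - min (a i * t) (H i)| ≤ |a i * s - a i * t| := by
    have := abs_min_sub_min_le_max (a i * s) (H i) (a i * t) (H i)
    rw [sub_self, abs_zero, max_eq_left (abs_nonneg _)] at this
    exact this
  have h2 : |a i * s - a i * t| = a i * |s - t| := by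
    rw [← mul_sub, abs_mul, abs_of_pos (a_pos i)]
  have h3 : |δ i * s - δ i * t| = δ i * |s - t| := by
    rw [← mul_sub, abs_mul, abs_of_pos (δ_pos i)]
  have h4 : min (a i * s) (H i) + δ i * s - (min (a i * t) (H i) + δ i * t) =
    (min (a i * s) (H i) - min (a i * t) (H i)) + (δ i * s - δ i * t) := by ring
  rw [h4]
  refine (abs_add_le _ _).trans ?_
  rw [h3]
  rw [h2] at h1
  linarith

lemma ψ_zero (i : ℕ) : ψ i 0 = 0 := by
  unfold ψ
  rw [mul_zero, mul_zero, min_eq_left (H_pos i).le, add_zero]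

lemma ψ_nonneg (i : ℕ) {t : ℝ} (h : 0 ≤ t) : 0 ≤ ψ i t := by
  rw [← ψ_zero i]; exact ψ_mono i h

lemma ψ_far (i : ℕ) {t : ℝ} (h : (N i : ℝ) ≤ 2 * t) : ψ i t = H i + δ i * t := by
  unfold ψ
  rw [min_eq_right]
  unfold a
  rw [div_mul_eq_mul_div, le_div_iff₀ (NR_pos i)]
  have := H_pos i
  nlinarith

lemma ψ_le (i : ℕ) {t : ℝ} : ψ i t ≤ (a i + δ i) * t := by
  unfold ψ
  have := min_le_left (a i * t) (H i)
  linarith

/-- level `i` transfer function. -/
noncomputable def G (i : ℕ) (x : ℤ_[3]) : ℝ :=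
  ψ i ((|r i x| : ℤ) : ℝ) - ψ i ((|r i (ξ - x)| : ℤ) : ℝ)

/-- the level `i` contribution to the cocycle. -/
noncomputable def V (i : ℕ) (x : ℤ_[3]) (n : ℤ) : ℝ := G i (x + n) - G i x

/-- Lipschitz constant. -/
noncomputable def b (i : ℕ) : ℝ := 2 * (a i + δ i)

lemma b_pos (i : ℕ) : 0 < b i := by
  unfold b
  have := a_pos i
  have := δ_pos i
  positivity

lemma G_xi (i : ℕ) (x : ℤ_[3]) : G i (ξ - x) = - G i x := by
  unfold G
  have : ξ - (ξ - x) = x := by ring
  rw [this]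
  ring

lemma V_zero (i : ℕ) (x : ℤ_[3]) : V i x 0 = 0 := by
  unfold V
  simp

lemma V_add (i : ℕ) (x : ℤ_[3]) (m n : ℤ) : V i x (m + n) = V i x m + V i (x + m) n := by
  unfold V
  push_cast
  rw [add_assoc]
  ring

lemma V_xi (i : ℕ) (x : ℤ_[3]) (n : ℤ) : V i (ξ - x) n = - V i x (-n) := by
  unfold V
  have : ξ - x + (n : ℤ_[3]) = ξ - (x + ((-n : ℤ) : ℤ_[3])) := by push_cast; ring
  rw [this, G_xi, G_xi]
  ring

lemma abs_V_le (i : ℕ) (x : ℤ_[3]) (n : ℤ) : |V i x n| ≤ b i * |(n : ℝ)| := by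
  unfold V G b
  have h1 := ψ_lip i ((|r i (x + n)| : ℤ) : ℝ) ((|r i x| : ℤ) : ℝ)
  have h2 := ψ_lip i ((|r i (ξ - (x + n))| : ℤ) : ℝ) ((|r i (ξ - x)| : ℤ) : ℝ)
  have h3 : |(((|r i (x + n)| : ℤ) : ℝ) - ((|r i x| : ℤ) : ℝ))| ≤ |(n : ℝ)| := by
    have := abs_abs_rr_sub_le (e (i + 1)) x n
    exact_mod_cast this
  have h4 : |(((|r i (ξ - (x + n))| : ℤ) : ℝ) - ((|r i (ξ - x)| : ℤ) : ℝ))| ≤ |(n : ℝ)| := by
    have := abs_abs_rr_sub_le (e (i + 1)) (ξ - x) (-n)
    have e1 : ξ - x + ((-n : ℤ) : ℤ_[3]) = ξ - (x + n) := by push_cast; ring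
    rw [e1, abs_neg] at this
    exact_mod_cast this
  have hp : 0 ≤ a i + δ i := (add_pos (a_pos i) (δ_pos i)).le
  have h5 := h1.trans (mul_le_mul_of_nonneg_left h3 hp)
  have h6 := h2.trans (mul_le_mul_of_nonneg_left h4 hp)
  rw [abs_le] at h5 h6 ⊢
  constructor <;> linarith [h5.1, h5.2, h6.1, h6.2]

lemma V_eq_zero_of_dvd (i : ℕ) (x : ℤ_[3]) (n : ℤ) (h : N (i + 1) ∣ n) : V i x n = 0 := by
  unfold V G r
  have h1 := rr_add_of_dvd (e (i + 1)) x n h
  have h2 := rr_add_of_dvd (e (i + 1)) (ξ - x) (-n) ((dvd_neg).2 h)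
  have e1 : ξ - x + ((-n : ℤ) : ℤ_[3]) = ξ - (x + n) := by push_cast; ring
  rw [e1] at h2
  rw [h1, h2]
  ring

/-- growth of the exponents. -/
lemma e_gap {i l : ℕ} (h : i < l) : e i + (2 * l + 2 * i + 11) ≤ e l := by
  obtain ⟨d, rfl⟩ := Nat.exists_eq_add_of_lt h
  unfold e
  nlinarith [sq_nonneg d, Nat.zero_le (i * d)]

/-- `R i` bounds the size of the return times used at level `i`. -/
def R (i : ℕ) : ℤ := 3 ^ (2 * i + 6) * N i

lemma R_pos (i : ℕ) : 0 < R i := by
  unfold R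
  have := N_pos i
  positivity

lemma b_le (l : ℕ) : b l ≤ 3 ^ (l + 5) / N l := by
  unfold b a δ H ε
  have hN := NR_pos l
  rw [← add_div, mul_div_assoc']
  apply div_le_div_of_nonneg_right _ hN.le
  have h1 : ((1 : ℝ) / 3) ^ l ≤ 1 := pow_le_one₀ (by norm_num) (by norm_num)
  have h2 : (1 : ℝ) ≤ 3 ^ l := one_le_pow₀ (by norm_num)
  rw [pow_add, pow_add]
  nlinarith

lemma b_R_le {i l : ℕ} (h : i < l) : b l * R i ≤ ε l := by
  have hN := NR_pos l
  have h1 : b l * R i ≤ 3 ^ (l + 5) / N l * R i := by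
    apply mul_le_mul_of_nonneg_right (b_le l)
    exact_mod_cast (R_pos i).le
  refine h1.trans ?_
  unfold ε R N
  push_cast
  rw [div_mul_eq_mul_div, div_le_iff₀ (by positivity), one_div, inv_pow, ← div_eq_inv_mul,
    le_div_iff₀ (by positivity)]
  rw [← pow_add, ← pow_add, ← pow_add]
  apply pow_le_pow_right₀ (by norm_num)
  have := e_gap h
  omega

lemma R_mono : Monotone R := by
  apply monotone_nat_of_le_succ
  intro i
  unfold R
  rw [N_succ]
  have h1 : (3 : ℤ) ^ (2 * i + 6) ≤ 3 ^ (2 * (i + 1) + 6) :=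
    pow_le_pow_right₀ (by norm_num) (by omega)
  have h2 : N i ≤ N i * 3 ^ (10 * i + 35) := by
    have : (1 : ℤ) ≤ 3 ^ (10 * i + 35) := one_le_pow₀ (by norm_num)
    nlinarith [N_pos i]
  apply mul_le_mul h1 h2 (N_pos i).le (by positivity)

lemma summable_b : Summable b := by
  rw [← summable_nat_add_iff 1]
  apply Summable.of_nonneg_of_le (fun l => (b_pos _).le) (fun l => ?_)
    ((summable_nat_add_iff 1).2 (summable_geometric_of_lt_one (r := (1 / 3 : ℝ)) (by norm_num)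
      (by norm_num)))
  have h := b_R_le (i := 0) (l := l + 1) (by omega)
  have h2 : (1 : ℝ) ≤ R 0 := by
    have := R_pos 0
    exact_mod_cast this
  have h3 := b_pos (l + 1)
  unfold ε at h
  nlinarith

lemma summable_V (x : ℤ_[3]) (n : ℤ) : Summable fun l => V l x n := by
  apply Summable.of_norm_bounded (summable_b.mul_right |(n : ℝ)|)
  intro l
  rw [Real.norm_eq_abs]
  exact abs_V_le l x n

/-- the cocycle. -/
noncomputable def S (x : ℤ_[3]) (n : ℤ) : ℝ := ∑' l, V l x n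

lemma S_add (x : ℤ_[3]) (m n : ℤ) : S x (m + n) = S x m + S (x + m) n := by
  unfold S
  rw [← (summable_V x m).tsum_add (summable_V (x + m) n)]
  congr 1
  ext l
  exact V_add l x m n

lemma S_zero (x : ℤ_[3]) : S x 0 = 0 := by
  unfold S
  simp [V_zero]

lemma S_xi (x : ℤ_[3]) (n : ℤ) : S (ξ - x) n = - S x (-n) := by
  unfold S
  rw [← tsum_neg]
  congr 1
  ext l
  exact V_xi l x n

lemma continuous_abs_r (i : ℕ) : Continuous fun x => ((|r i x| : ℤ) : ℝ) := by
  have h : Continuous fun z : ℤ => ((|z| : ℤ) : ℝ) := continuous_of_discreteTopology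
  exact h.comp (continuous_rr _)

lemma continuous_ψ (i : ℕ) : Continuous (ψ i) := by
  unfold ψ
  fun_prop

lemma continuous_G (i : ℕ) : Continuous (G i) := by
  unfold G
  have h1 := (continuous_ψ i).comp (continuous_abs_r i)
  have h2 := h1.comp (continuous_const.sub continuous_id : Continuous fun x : ℤ_[3] => ξ - x)
  exact h1.sub h2

lemma continuous_S (n : ℤ) : Continuous fun x => S x n := by
  unfold S
  apply continuous_tsum (u := fun l => b l * |(n : ℝ)|)
  · intro l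
    unfold V
    exact ((continuous_G l).comp (continuous_id.add continuous_const)).sub (continuous_G l)
  · exact summable_b.mul_right _
  · intro l x
    rw [Real.norm_eq_abs]
    exact abs_V_le l x n

/-- tail estimate. -/
lemma tail (i : ℕ) (x : ℤ_[3]) (n : ℤ) (hn : |n| ≤ 2 * R i) :
    |S x n - ∑ l ∈ Finset.range (i + 1), V l x n| ≤ ε i := by
  unfold S
  rw [← (summable_V x n).sum_add_tsum_nat_add (i + 1), add_sub_cancel_left]
  have hg : HasSum (fun l : ℕ => 2 * (1 / 3 : ℝ) ^ (l + (i + 1))) (ε i) := by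
    have h1 := (hasSum_geometric_of_lt_one (r := (1 / 3 : ℝ)) (by norm_num) (by norm_num)).mul_left
      (2 * (1 / 3 : ℝ) ^ (i + 1))
    have h2 : 2 * (1 / 3 : ℝ) ^ (i + 1) * (1 - 1 / 3)⁻¹ = ε i := by
      unfold ε
      rw [pow_succ]; ring
    rw [h2] at h1
    have h3 : (fun l : ℕ => 2 * (1 / 3 : ℝ) ^ (l + (i + 1))) =
        fun l : ℕ => 2 * (1 / 3 : ℝ) ^ (i + 1) * (1 / 3) ^ l := by
      ext l
      rw [pow_add]; ring
    rw [h3]
    exact h1
  rw [← Real.norm_eq_abs]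
  apply tsum_of_norm_bounded hg
  intro l
  rw [Real.norm_eq_abs]
  refine (abs_V_le _ x n).trans ?_
  have h3 := b_R_le (i := i) (l := l + (i + 1)) (by omega)
  have h4 : |(n : ℝ)| ≤ 2 * R i := by exact_mod_cast hn
  have h5 := mul_le_mul_of_nonneg_left h4 (b_pos (l + (i + 1))).le
  unfold ε at h3
  linarith

/-- one-level approximation. -/
lemma approx_one (i : ℕ) (x : ℤ_[3]) (n : ℤ) (hd : N i ∣ n) (hn : |n| ≤ R i) :
    |S x n - V i x n| ≤ ε i := by
  have h := tail i x n (by linarith [R_pos i])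
  rw [Finset.sum_range_succ, Finset.sum_eq_zero, zero_add] at h
  · exact h
  · intro l hl
    rw [Finset.mem_range] at hl
    exact V_eq_zero_of_dvd l x n ((N_dvd hl).trans hd)

/-- two-level approximation. -/
lemma approx_two (i : ℕ) (x : ℤ_[3]) (m n : ℤ) (hm : N (i + 1) ∣ m) (hn : N i ∣ n)
    (hmR : |m| ≤ R (i + 1)) (hnR : |n| ≤ R i) :
    |S x (m + n) - V (i + 1) x m - V i x n| ≤ ε i := by
  have h := tail (i + 1) x (m + n) (by
    have := R_mono (Nat.le_succ i)
    have h2 := abs_add_le m n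
    have h3 : R i ≤ R (i + 1) := this
    linarith)
  rw [Finset.sum_range_succ, Finset.sum_range_succ, Finset.sum_eq_zero, zero_add] at h
  · have h1 : V i x (m + n) = V i x n := by
      rw [V_add, V_eq_zero_of_dvd i x m hm, zero_add]
      have h2 := V_add i x n m
      have h3 := V_add i x m n
      rw [V_eq_zero_of_dvd i (x + n) m hm, add_zero] at h2
      rw [V_eq_zero_of_dvd i x m hm, zero_add, add_comm m n, h2] at h3
      exact h3.symm
    have h2 : V (i + 1) x (m + n) = V (i + 1) x m + V (i + 1) (x + m) n := V_add _ _ _ _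
    have h3 : |V (i + 1) (x + m) n| ≤ ε (i + 1) := by
      refine (abs_V_le _ _ _).trans ?_
      refine le_trans ?_ (b_R_le (Nat.lt_succ_self i))
      apply mul_le_mul_of_nonneg_left _ (b_pos _).le
      exact_mod_cast hnR
    rw [h1, h2] at h
    have h4 : 2 * ε (i + 1) ≤ ε i := by
      unfold ε
      rw [pow_succ]
      have : (0 : ℝ) < (1 / 3) ^ i := by positivity
      linarith
    rw [abs_le] at h h3 ⊢
    constructor <;> linarith [h.1, h.2, h3.1, h3.2]
  · intro l hl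
    rw [Finset.mem_range] at hl
    exact V_eq_zero_of_dvd l x _
      (dvd_add ((N_dvd (by omega)).trans hm) ((N_dvd (by omega)).trans hn))

lemma N_def (i : ℕ) : N i = 3 ^ e i := rfl

lemma r_def (i : ℕ) (x : ℤ_[3]) : r i x = rr (e (i + 1)) x := rfl

attribute [irreducible] e N r R H ε a δ ψ b

end Q67.CY
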