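import Pool.Agent.Q67.CY.Moves

/-!
# The dichotomy

Helper file for MP_c1c973_an.
-/

namespace Q67.CY

open PadicInt

/-- all values are approached along return times to a neighbourhood of `0`. -/
def Rec (x : ℤ_[3]) : Prop :=
  ∀ (s : ℝ) (j : ℕ), ∃ i ≥ j, ∃ n : ℤ, N i ∣ n ∧ |S x n - s| ≤ 10 * ε i

lemma rec_xi {x : ℤ_[3]} (h : Rec (ξ - x)) : Rec x := by
  intro s j
  obtain ⟨i, hi, n, hn, h1⟩ := h (-s) j
  refine ⟨i, hi, -n, (dvd_neg).2 hn, ?_⟩
  rw [S_xi] at h1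
  have : S x (-n) - s = -(-S x (-n) - -s) := by ring
  rw [this, abs_neg]
  exact h1

lemma exists_pow_ge (s : ℝ) : ∃ J : ℕ, ∀ i ≥ J, |s| ≤ 3 ^ i := by
  obtain ⟨J, hJ⟩ := pow_unbounded_of_one_lt |s| (show (1 : ℝ) < 3 by norm_num)
  refine ⟨J, fun i hi => hJ.le.trans ?_⟩
  exact pow_le_pow_right₀ (by norm_num) hi

lemma H_eq (i : ℕ) : H i = 27 * 3 ^ i := by
  unfold H
  rw [pow_add]; norm_num; ring

lemma one_le_three_pow (i : ℕ) : (1 : ℝ) ≤ 3 ^ i := one_le_pow₀ (by norm_num)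

lemma ε_succ_le (i : ℕ) : ε (i + 1) ≤ ε i := by
  unfold ε
  rw [pow_succ]
  have : (0 : ℝ) < (1 / 3) ^ i := by positivity
  linarith

lemma rec_mid {x : ℤ_[3]} (h : ∀ j : ℕ, ∃ i ≥ j, ¬ Low i x ∧ ¬ Low i (ξ - x)) : Rec x := by
  intro s j
  obtain ⟨J, hJ⟩ := exists_pow_ge s
  obtain ⟨i, hi, h1, h2⟩ := h (max j J)
  have hij : j ≤ i := le_trans (le_max_left _ _) hi
  have hiJ : J ≤ i := le_trans (le_max_right _ _) hi
  obtain ⟨n, hn1, hn2, hn3⟩ := mid i x h1 h2 s (hJ i hiJ)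
  refine ⟨i, hij, n, hn1, ?_⟩
  have h3 := approx_one i x n hn1 hn2
  have hε := ε_pos i
  rw [abs_le] at h3 hn3 ⊢
  constructor <;> linarith [h3.1, h3.2, hn3.1, hn3.2]

lemma rec_cross {x : ℤ_[3]} (h : ∀ j : ℕ, ∃ i ≥ j, Low i (ξ - x) ∧ Low (i + 1) x) : Rec x := by
  intro s j
  obtain ⟨J, hJ⟩ := exists_pow_ge s
  obtain ⟨i, hi, h1, h2⟩ := h (max j J)
  have hij : j ≤ i := le_trans (le_max_left _ _) hi
  have hiJ : J ≤ i := le_trans (le_max_right _ _) hi
  have hs := abs_le.1 (hJ i hiJ)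
  have h3i := one_le_three_pow i
  have hH := H_eq i
  have hH1 := H_succ i
  have hH2 := H_succ (i + 1)
  obtain ⟨m, hm1, hm2, hm3⟩ := up (i + 1) x h2 (2 * H (i + 1)) (by linarith) (by linarith)
  obtain ⟨n, hn1, hn2, hn3⟩ := down i x h1 (2 * H (i + 1) - s) (by linarith [hs.2])
    (by linarith [hs.1])
  refine ⟨i, hij, m + n, dvd_add ((N_dvd (Nat.le_succ i)).trans hm1) hn1, ?_⟩
  have h3 := approx_two i x m n hm1 hn1 hm2 hn2
  have hε := ε_pos i
  have hε' := ε_succ_le i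
  rw [abs_le] at h3 hn3 hm3 ⊢
  constructor <;> linarith [h3.1, h3.2, hn3.1, hn3.2, hm3.1, hm3.2]

lemma N_odd (i : ℕ) : Odd (N i) := by
  rw [N_def]
  exact odd_pow _

lemma rec_low {x : ℤ_[3]} (i₀ : ℕ) (h : ∀ i ≥ i₀, Low i x) (hx : ∀ m : ℤ, x ≠ m) : Rec x := by
  by_cases hbig : ∀ j : ℕ, ∃ i ≥ j, N (i + 1) < 2 * |r (i + 1) x|
  · intro s j
    obtain ⟨J, hJ⟩ := exists_pow_ge s
    obtain ⟨i, hi, h1⟩ := hbig (max (max j J) i₀)
    have hij : j ≤ i := le_trans (le_trans (le_max_left _ _) (le_max_left _ _)) hi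
    have hiJ : J ≤ i := le_trans (le_trans (le_max_right _ _) (le_max_left _ _)) hi
    have hii : i₀ ≤ i := le_trans (le_max_right _ _) hi
    have hs := abs_le.1 (hJ i hiJ)
    have h3i := one_le_three_pow i
    have hH := H_eq i
    have hH1 := H_succ i
    obtain ⟨m, hm1, hm2, hm3, hm4⟩ := drop i x (h i hii) (h (i + 1) (by omega)) h1
    obtain ⟨n, hn1, hn2, hn3⟩ := up i x (h i hii) (s + -V (i + 1) x m)
      (by linarith [hs.1]) (by linarith [hs.2])
    refine ⟨i, hij, m + n, dvd_add ((N_dvd (Nat.le_succ i)).trans hm1) hn1, ?_⟩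
    have h3 := approx_two i x m n hm1 hn1 hm2 hn2
    have hε := ε_pos i
    rw [abs_le] at h3 hn3 ⊢
    constructor <;> linarith [h3.1, h3.2, hn3.1, hn3.2]
  · exfalso
    push Not at hbig
    obtain ⟨j, hj⟩ := hbig
    have hstep : ∀ i ≥ j, r (i + 1) x = r i x := by
      intro i hi
      have h1 : 2 * |r (i + 1) x| < N (i + 1) := by
        have h2 := hj i hi
        obtain ⟨c, hc⟩ := N_odd (i + 1)
        omega
      have h2 := rr_eq_of_small (e (i + 1)) (e (i + 1 + 1)) (e_strictMono.monotone (by omega)) x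
        (by rw [← r_def, ← N_def]; exact h1)
      rw [← r_def, ← r_def] at h2
      exact h2.symm
    have hconst : ∀ i ≥ j, r i x = r j x := by
      intro i hi
      induction i, hi using Nat.le_induction with
      | base => rfl
      | succ i hi ih => rw [hstep i hi, ih]
    apply hx (r j x)
    apply eq_int_of_rr
    intro K
    refine ⟨e (max K j + 1), ?_, ?_⟩
    · exact le_trans (le_trans (le_max_left _ _) (Nat.le_succ _)) (e_strictMono.le_apply)
    · rw [← r_def]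
      exact hconst _ (le_max_right _ _)

theorem rec_of_ne {x : ℤ_[3]} (hx : ∀ m : ℤ, x ≠ m) (hx' : ∀ m : ℤ, ξ - x ≠ m) : Rec x := by
  have hxx : ξ - (ξ - x) = x := by ring
  by_cases h1 : ∀ j : ℕ, ∃ i ≥ j, ¬ Low i x ∧ ¬ Low i (ξ - x)
  · exact rec_mid h1
  by_cases h2 : ∀ j : ℕ, ∃ i ≥ j, Low i (ξ - x) ∧ Low (i + 1) x
  · exact rec_cross h2
  by_cases h3 : ∀ j : ℕ, ∃ i ≥ j, Low i x ∧ Low (i + 1) (ξ - x)
  · apply rec_xi
    apply rec_cross
    rw [hxx]
    exact h3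
  push Not at h1 h2 h3
  obtain ⟨j1, h1⟩ := h1
  obtain ⟨j2, h2⟩ := h2
  obtain ⟨j3, h3⟩ := h3
  set J := max j1 (max j2 j3) with hJ
  have hJ1 : j1 ≤ J := le_max_left _ _
  have hJ2 : j2 ≤ J := le_trans (le_max_left _ _) (le_max_right _ _)
  have hJ3 : j3 ≤ J := le_trans (le_max_right _ _) (le_max_right _ _)
  by_cases hL : Low J x
  · refine rec_low J (fun i hi => ?_) hx
    induction i, hi using Nat.le_induction with
    | base => exact hL
    | succ i hi ih =>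
      by_contra hcon
      exact h3 i (hJ3.trans hi) ih (h1 (i + 1) (by omega) hcon)
  · have hL' : Low J (ξ - x) := h1 J hJ1 hL
    apply rec_xi
    refine rec_low J (fun i hi => ?_) hx'
    induction i, hi using Nat.le_induction with
    | base => exact hL'
    | succ i hi ih =>
      have h4 := h2 i (hJ2.trans hi) ih
      exact h1 (i + 1) (by omega) h4

/-- escaping cocycles. -/
def Esc (x : ℤ_[3]) : Prop := ∀ M : ℝ, {n : ℤ | |S x n| ≤ M}.Finite

lemma V_zero_ge (l : ℕ) (k : ℤ) : ψ l ((|r l (k : ℤ_[3])| : ℤ) : ℝ) ≤ V l 0 k := by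
  unfold V G
  rw [zero_add, sub_zero]
  have h0 : r l 0 = 0 := by
    have := rr_int (e (l + 1)) 0 (by simp)
    rw [← r_def] at this
    exact_mod_cast this
  have h1 := abs_r_add l 0
  rw [h0, abs_zero, zero_add, sub_zero] at h1
  have h2 := two_abs_r_lt l ξ
  have h3 := two_abs_r_lt l (ξ - k)
  have h4 : |r l (ξ - (k : ℤ_[3]))| ≤ |r l ξ| := by
    rcases h1 with h1 | h1 <;> omega
  have h5 : ψ l ((|r l (ξ - (k : ℤ_[3]))| : ℤ) : ℝ) ≤ ψ l ((|r l ξ| : ℤ) : ℝ) := by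
    apply ψ_mono
    exact_mod_cast h4
  rw [h0, abs_zero, Int.cast_zero, ψ_zero]
  linarith

lemma V_zero_nonneg (l : ℕ) (k : ℤ) : 0 ≤ V l 0 k :=
  (ψ_nonneg l (by exact_mod_cast abs_nonneg _)).trans (V_zero_ge l k)

lemma N_gt (i : ℕ) : (i : ℤ) < N i := by
  rw [N_def]
  have h1 : i ≤ e i := e_strictMono.le_apply
  have h2 : e i < 3 ^ e i := Nat.lt_pow_self (by norm_num)
  have h3 : i < 3 ^ e i := lt_of_le_of_lt h1 h2
  exact_mod_cast h3

lemma N_mono {i j : ℕ} (h : i ≤ j) : N i ≤ N j :=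
  Int.le_of_dvd (N_pos j) (N_dvd h)

lemma S_zero_ge (L : ℕ) (k : ℤ) (h : N L ≤ 2 * |k|) : H L ≤ S 0 k := by
  have hex : ∃ l : ℕ, 2 * |k| < N (l + 1) := by
    refine ⟨(2 * |k|).toNat, ?_⟩
    have h1 := N_gt ((2 * |k|).toNat + 1)
    have h2 : ((2 * |k|).toNat : ℤ) = 2 * |k| := Int.toNat_of_nonneg (by positivity)
    push_cast at h1
    linarith
  classical
  set l := Nat.find hex with hl
  have hl1 : 2 * |k| < N (l + 1) := Nat.find_spec hex
  have hl2 : L ≤ l := by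
    by_contra hcon
    have : N (l + 1) ≤ N L := N_mono (by omega)
    linarith
  have hl3 : N l ≤ 2 * |k| := by
    rcases Nat.eq_zero_or_pos l with h0 | h0
    · rw [h0, N_zero]
      have := N_pos L
      linarith
    · obtain ⟨l', hl'⟩ : ∃ l', l = l' + 1 := ⟨l - 1, by omega⟩
      have := Nat.find_min hex (m := l') (by omega)
      rw [not_lt] at this
      rw [hl']
      exact this
  have hr : r l (k : ℤ_[3]) = k := by
    rw [r_def]
    apply rr_int
    rw [← N_def]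
    exact hl1
  have h1 : V l 0 k ≤ S 0 k := (summable_V 0 k).le_tsum l (fun j _ => V_zero_nonneg j k)
  have h2 := V_zero_ge l k
  rw [hr] at h2
  rw [far_cast l (t := |k|) hl3] at h2
  have h3 : 0 ≤ δ l * ((|k| : ℤ) : ℝ) := mul_nonneg (δ_pos l).le (by exact_mod_cast abs_nonneg _)
  have h4 : H L ≤ H l := by
    rw [H_eq, H_eq]
    have : (3 : ℝ) ^ L ≤ 3 ^ l := pow_le_pow_right₀ (by norm_num) hl2
    linarith
  linarith

lemma esc_zero : Esc 0 := by
  intro M
  obtain ⟨L, hL⟩ : ∃ L : ℕ, M < H L := by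
    obtain ⟨J, hJ⟩ := pow_unbounded_of_one_lt M (show (1 : ℝ) < 3 by norm_num)
    refine ⟨J, ?_⟩
    rw [H_eq]
    have := one_le_three_pow J
    linarith
  apply (Set.finite_Icc (-(N L)) (N L)).subset
  intro k hk
  rw [Set.mem_ofPred_eq] at hk
  rw [Set.mem_Icc, ← abs_le]
  by_contra hcon
  have h1 := S_zero_ge L k (by have := abs_nonneg k; omega)
  have := (abs_le.1 hk).2
  linarith

lemma esc_add {x : ℤ_[3]} (m : ℤ) (h : Esc x) : Esc (x + m) := by
  intro M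
  have h1 := (h (M + |S x m|)).preimage (f := fun n : ℤ => m + n)
    (Set.injOn_of_injective (add_right_injective m))
  apply h1.subset
  intro n hn
  rw [Set.mem_ofPred_eq] at hn
  rw [Set.mem_preimage, Set.mem_ofPred_eq, S_add]
  have := abs_add_le (S x m) (S (x + m) n)
  linarith

lemma esc_xi {x : ℤ_[3]} (h : Esc (ξ - x)) : Esc x := by
  intro M
  have h1 := (h M).preimage (f := fun n : ℤ => -n) (Set.injOn_of_injective neg_injective)
  apply h1.subset
  intro n hn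
  rw [Set.mem_ofPred_eq] at hn
  rw [Set.mem_preimage, Set.mem_ofPred_eq, S_xi, neg_neg, abs_neg]
  exact hn

/-- the dichotomy for the cocycle. -/
theorem rec_or_esc (x : ℤ_[3]) : Rec x ∨ Esc x := by
  by_cases hx : ∀ m : ℤ, x ≠ m
  · by_cases hx' : ∀ m : ℤ, ξ - x ≠ m
    · exact Or.inl (rec_of_ne hx hx')
    · push Not at hx'
      obtain ⟨m, hm⟩ := hx'
      right
      apply esc_xi
      rw [hm]
      have := esc_add m esc_zero
      rwa [zero_add] at this
  · push Not at hx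
    obtain ⟨m, hm⟩ := hx
    right
    rw [hm]
    have := esc_add m esc_zero
    rwa [zero_add] at this

/-- there is a point outside the two exceptional orbits. -/
theorem exists_rec : ∃ x : ℤ_[3], Rec x := by
  have h : IsUnit ((5 : ℕ) : ℤ_[3]) := by
    rw [PadicInt.isUnit_iff]
    rw [PadicInt.norm_natCast_eq_one_iff]
    decide
  obtain ⟨u, hu⟩ := h
  have h5 : (5 : ℤ_[3]) * (↑u⁻¹ : ℤ_[3]) = 1 := by
    have : (5 : ℤ_[3]) = ↑u := by rw [hu]; norm_num
    rw [this]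
    simp
  refine ⟨(↑u⁻¹ : ℤ_[3]), rec_of_ne (fun m hm => ?_) (fun m hm => ?_)⟩
  · rw [hm] at h5
    have h6 : ((5 * m : ℤ) : ℤ_[3]) = ((1 : ℤ) : ℤ_[3]) := by push_cast; exact h5
    have h7 : 5 * m = 1 := Int.cast_injective h6
    omega
  · have h6 : ((10 * m : ℤ) : ℤ_[3]) = ((-7 : ℤ) : ℤ_[3]) := by
      push_cast
      rw [← hm]
      have : (10 : ℤ_[3]) * (ξ - ↑u⁻¹) = 5 * (2 * ξ) - 2 * (5 * ↑u⁻¹) := by ring
      rw [this, h5, two_xi]
      ring
    have h7 : 10 * m = -7 := Int.cast_injective h6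
    omega

end Q67.CY
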