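import Pool.Agent.Q67.CY.Dicho

/-!
# Cylindrical transformations: definitions and main theorem

Helper file for MP_c1c973_an.
-/

namespace Q67.CY

open PadicInt Topology

/-- The cylindrical transformation `T_φ (x, t) = (x + α, t + φ x)` of `X × ℝ`. -/
def cyl {X : Type*} [AddCommGroup X] (α : X) (φ : X → ℝ) : Equiv.Perm (X × ℝ) where
  toFun p := (p.1 + α, p.2 + φ p.1)
  invFun p := (p.1 - α, p.2 - φ (p.1 - α))
  left_inv p := by ext <;> simp
  right_inv p := by ext <;> simp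

/-- The full (two-sided) orbit of `p` under `T_φ`. -/
def orbit {X : Type*} [AddCommGroup X] (α : X) (φ : X → ℝ) (p : X × ℝ) : Set (X × ℝ) :=
  Set.range fun n : ℤ => (cyl α φ ^ n) p

/-- The rotation `x ↦ x + α` is minimal: every (two-sided) orbit is dense. -/
def IsMinimalRotation {X : Type*} [AddCommGroup X] [TopologicalSpace X] (α : X) : Prop :=
  ∀ x : X, Dense (Set.range fun n : ℤ => x + n • α)

/-- The orbit of `p` is dense in `X × ℝ`. -/
def DenseOrbit {X : Type*} [AddCommGroup X] [TopologicalSpace X] (α : X) (φ : X → ℝ)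
    (p : X × ℝ) : Prop := Dense (orbit α φ p)

/-- The orbit of `p` is discrete: each of its points has a neighbourhood meeting the orbit only in
that point. -/
def DiscreteOrbit {X : Type*} [AddCommGroup X] [TopologicalSpace X] (α : X) (φ : X → ℝ)
    (p : X × ℝ) : Prop := ∀ q ∈ orbit α φ p, ∃ U ∈ 𝓝 q, U ∩ orbit α φ p = {q}

/-- `T_φ` is Besicovitch: it has a dense orbit and a discrete orbit. -/
def Besicovitch {X : Type*} [AddCommGroup X] [TopologicalSpace X] (α : X) (φ : X → ℝ) : Prop :=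
  (∃ p, DenseOrbit α φ p) ∧ ∃ p, DiscreteOrbit α φ p

/-- `(X, α, φ)` answers the question: `X` is a compact metric abelian group, the rotation by `α`
is minimal, `φ` is continuous, `T_φ` is Besicovitch and every orbit is dense or discrete. -/
def IsExample (X : Type*) [AddCommGroup X] [MetricSpace X] [CompactSpace X]
    [IsTopologicalAddGroup X] (α : X) (φ : X → ℝ) : Prop :=
  IsMinimalRotation α ∧ Continuous φ ∧ Besicovitch α φ ∧
    ∀ p : X × ℝ, DenseOrbit α φ p ∨ DiscreteOrbit α φ p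

/-- the function `φ`. -/
noncomputable def φ (x : ℤ_[3]) : ℝ := S x 1

lemma cyl_zpow (n : ℤ) (x : ℤ_[3]) (t : ℝ) :
    (cyl (1 : ℤ_[3]) φ ^ n) (x, t) = (x + n, t + S x n) := by
  induction n using Int.induction_on with
  | zero => simp [S_zero]
  | succ i ih =>
    rw [add_comm (i : ℤ) 1, zpow_add, zpow_one, Equiv.Perm.mul_apply, ih]
    have h := S_add x i 1
    change (x + ((i : ℤ) : ℤ_[3]) + 1, t + S x i + φ (x + ((i : ℤ) : ℤ_[3]))) = _
    rw [add_comm (1 : ℤ) i, h]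
    unfold φ
    push_cast
    rw [add_assoc x, add_assoc t]
  | pred i ih =>
    rw [show (-(i : ℤ) - 1) = -1 + -(i : ℤ) by ring, zpow_add, Equiv.Perm.mul_apply, ih, zpow_neg,
      zpow_one]
    rw [Equiv.Perm.inv_def, Equiv.symm_apply_eq]
    have h := S_add x (-1 + -(i : ℤ)) 1
    change _ = (x + ((-1 + -(i : ℤ) : ℤ) : ℤ_[3]) + 1,
      t + S x (-1 + -(i : ℤ)) + φ (x + ((-1 + -(i : ℤ) : ℤ) : ℤ_[3])))
    unfold φ
    rw [add_assoc t, ← h]
    have e1 : -1 + -(i : ℤ) + 1 = -(i : ℤ) := by ring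
    rw [e1]
    push_cast
    congr 1
    ring

lemma norm_small (j : ℕ) (n : ℤ) (h : N j ∣ n) : ‖(n : ℤ_[3])‖ ≤ (1 / 3 : ℝ) ^ j := by
  have h1 : ((3 ^ j : ℕ) : ℤ) ∣ n := by
    refine dvd_trans ?_ h
    rw [N_def]
    push_cast
    exact pow_dvd_pow 3 (e_strictMono.le_apply)
  have h2 : ‖(n : ℤ_[3])‖ ≤ ((3 : ℕ) : ℝ) ^ (-j : ℤ) :=
    (PadicInt.norm_int_le_pow_iff_dvd (p := 3) (k := n) (n := j)).2 (by exact_mod_cast h1)
  refine h2.trans (le_of_eq ?_)
  rw [zpow_neg, zpow_natCast, one_div, inv_pow]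
  norm_num

lemma minimal : IsMinimalRotation (1 : ℤ_[3]) := by
  intro x
  have h := PadicInt.denseRange_intCast (p := 3)
  have h2 : Dense (Set.range fun n : ℤ => x + (n : ℤ_[3])) := by
    have h3 := (Homeomorph.addLeft x).surjective.denseRange.comp h
      (Homeomorph.addLeft x).continuous
    exact h3
  convert h2 using 3 with n
  simp

lemma dense_of_rec {x : ℤ_[3]} (h : Rec x) (t : ℝ) : DenseOrbit (1 : ℤ_[3]) φ (x, t) := by
  intro q
  rw [Metric.mem_closure_iff]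
  intro η hη
  obtain ⟨y, s⟩ := q
  -- choose `m` with `x + m` close to `y`
  have hmin := minimal x
  have hy := hmin y
  rw [Metric.mem_closure_iff] at hy
  obtain ⟨z, ⟨m, rfl⟩, hz⟩ := hy (η / 2) (by positivity)
  have hz' : dist y (x + (m : ℤ_[3])) < η / 2 := by simpa using hz
  -- continuity of `S · m` at `x`
  have hc := (continuous_S m).continuousAt (x := x)
  rw [Metric.continuousAt_iff] at hc
  obtain ⟨θ, hθ, hc⟩ := hc (η / 2) (by positivity)
  -- choose scale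
  obtain ⟨j, hj⟩ := exists_pow_lt_of_lt_one (show 0 < min θ (min (η / 2) (η / 2 / 10)) by positivity)
    (show (1 / 3 : ℝ) < 1 by norm_num)
  obtain ⟨i, hi, n, hn, hS⟩ := h (s - t - S x m) j
  have hpow : (1 / 3 : ℝ) ^ i ≤ (1 / 3) ^ j := pow_le_pow_of_le_one (by norm_num) (by norm_num) hi
  have hsm := norm_small i n hn
  have hε : ε i = (1 / 3 : ℝ) ^ i := by unfold ε; rfl
  have hj1 : (1 / 3 : ℝ) ^ j < θ := hj.trans_le (min_le_left _ _)
  have hj2 : (1 / 3 : ℝ) ^ j < η / 2 := hj.trans_le ((min_le_right _ _).trans (min_le_left _ _))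
  have hj3 : (1 / 3 : ℝ) ^ j < η / 2 / 10 := hj.trans_le ((min_le_right _ _).trans (min_le_right _ _))
  refine ⟨(x + ((n + m : ℤ) : ℤ_[3]), t + S x (n + m)), ⟨n + m, cyl_zpow _ _ _⟩, ?_⟩
  rw [Prod.dist_eq]
  apply max_lt
  · -- first coordinate
    change dist y (x + ((n + m : ℤ) : ℤ_[3])) < η
    have e1 : x + ((n + m : ℤ) : ℤ_[3]) = x + (m : ℤ_[3]) + (n : ℤ_[3]) := by push_cast; ring
    rw [e1]
    have e2 : dist (x + (m : ℤ_[3])) (x + (m : ℤ_[3]) + (n : ℤ_[3])) = ‖(n : ℤ_[3])‖ := by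
      rw [dist_eq_norm]
      have : x + (m : ℤ_[3]) - (x + (m : ℤ_[3]) + (n : ℤ_[3])) = -(n : ℤ_[3]) := by ring
      rw [this, norm_neg]
    have e3 := dist_triangle y (x + (m : ℤ_[3])) (x + (m : ℤ_[3]) + (n : ℤ_[3]))
    rw [e2] at e3
    linarith
  · change dist s (t + S x (n + m)) < η
    rw [S_add]
    have e1 : dist (x + (n : ℤ_[3])) x < θ := by
      rw [dist_eq_norm, add_sub_cancel_left]
      linarith
    have e2 := hc e1
    rw [Real.dist_eq] at e2 ⊢
    rw [hε] at hS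
    have e3 : s - (t + (S x n + S (x + (n : ℤ_[3])) m)) =
      -(S x n - (s - t - S x m)) - (S (x + (n : ℤ_[3])) m - S x m) := by ring
    rw [e3]
    have e4 := abs_sub (-(S x n - (s - t - S x m))) (S (x + (n : ℤ_[3])) m - S x m)
    rw [abs_neg] at e4
    linarith

lemma discrete_of_esc {x : ℤ_[3]} (h : Esc x) (t : ℝ) : DiscreteOrbit (1 : ℤ_[3]) φ (x, t) := by
  rintro q ⟨n, hn⟩
  -- the orbit meets the strip `|s - q.2| < 1` in finitely many points
  have hfin : ({p : ℤ_[3] × ℝ | |p.2 - q.2| < 1} ∩ orbit (1 : ℤ_[3]) φ (x, t)).Finite := by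
    have h1 := (h (1 + |q.2 - t|)).image (fun m : ℤ => (cyl (1 : ℤ_[3]) φ ^ m) (x, t))
    apply h1.subset
    rintro p ⟨hp1, ⟨m, hm⟩⟩
    refine ⟨m, ?_, hm⟩
    simp only [] at hm
    rw [← hm, cyl_zpow] at hp1
    change |t + S x m - q.2| < 1 at hp1
    change |S x m| ≤ 1 + |q.2 - t|
    have e1 : S x m = (t + S x m - q.2) + (q.2 - t) := by ring
    rw [e1]
    refine (abs_add_le _ _).trans ?_
    linarith
  set F := ({p : ℤ_[3] × ℝ | |p.2 - q.2| < 1} ∩ orbit (1 : ℤ_[3]) φ (x, t)) with hF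
  have hopen : IsOpen {p : ℤ_[3] × ℝ | |p.2 - q.2| < 1} := by
    apply isOpen_lt _ continuous_const
    fun_prop
  have hqF : q ∈ F := by
    refine ⟨?_, ⟨n, hn⟩⟩
    change |q.2 - q.2| < 1
    simp
  have hclosed : IsClosed (F \ {q}) := (hfin.subset Set.sdiff_subset).isClosed
  refine ⟨{p : ℤ_[3] × ℝ | |p.2 - q.2| < 1} ∩ (F \ {q})ᶜ, ?_, ?_⟩
  · apply (hopen.inter hclosed.isOpen_compl).mem_nhds
    refine ⟨hqF.1, ?_⟩
    simp
  · ext p
    constructor
    · rintro ⟨⟨hp1, hp2⟩, hp3⟩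
      by_contra hcon
      exact hp2 ⟨⟨hp1, hp3⟩, hcon⟩
    · intro hp
      rw [Set.mem_singleton_iff] at hp
      rw [hp]
      exact ⟨⟨hqF.1, by simp⟩, hqF.2⟩

theorem main : IsExample ℤ_[3] 1 φ := by
  refine ⟨minimal, continuous_S 1, ⟨?_, ?_⟩, ?_⟩
  · obtain ⟨x, hx⟩ := exists_rec
    exact ⟨(x, 0), dense_of_rec hx 0⟩
  · exact ⟨(0, 0), discrete_of_esc esc_zero 0⟩
  · rintro ⟨x, t⟩
    rcases rec_or_esc x with h | h
    · exact Or.inl (dense_of_rec h t)
    · exact Or.inr (discrete_of_esc h t)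

end Q67.CY
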