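import Pool.Agent.Q67.CY.Cocycle

/-!
# The moves

Helper file for MP_c1c973_an.
-/

namespace Q67.CY

open PadicInt

/-- `P i = 9^i N i`. -/
def P (i : ℕ) : ℤ := 3 ^ (2 * i) * N i

lemma P_pos (i : ℕ) : 0 < P i := by
  unfold P
  have := N_pos i
  positivity

lemma P_def (i : ℕ) : P i = 3 ^ (2 * i) * N i := rfl

lemma N_le_P (i : ℕ) : N i ≤ P i := by
  unfold P
  have h1 : (1 : ℤ) ≤ 3 ^ (2 * i) := one_le_pow₀ (by norm_num)
  nlinarith [N_pos i]

lemma R_eq (i : ℕ) : R i = 729 * P i := by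
  unfold R P
  rw [pow_add]; ring

lemma N_succ_ge (i : ℕ) : 10000 * P i ≤ N (i + 1) := by
  rw [N_succ]
  unfold P
  have h1 : (10000 : ℤ) * 3 ^ (2 * i) ≤ 3 ^ (10 * i + 35) := by
    have h2 : (3 : ℤ) ^ (2 * i) ≤ 3 ^ (10 * i) := pow_le_pow_right₀ (by norm_num) (by omega)
    rw [pow_add]
    norm_num
    nlinarith [h2, pow_pos (show (0 : ℤ) < 3 by norm_num) (10 * i)]
  nlinarith [N_pos i]

attribute [irreducible] P

/-- the region near the orbit of `0` at level `i`. -/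
def Low (i : ℕ) (x : ℤ_[3]) : Prop := |r i x| ≤ 9 * P i

lemma abs_r_add (i : ℕ) (x : ℤ_[3]) :
    2 * (|r i x| + |r i (ξ - x)|) + 1 = N (i + 1) ∨
      2 * (|r i x| + |r i (ξ - x)|) - 1 = N (i + 1) := by
  rw [r_def, r_def, N_def]
  exact abs_rr_add_abs_rr _ _

/-- one-sided shifts and the corresponding value of `V`. -/
lemma shiftV (i : ℕ) (x : ℤ_[3]) : ∃ σ w : ℤ, (σ = 1 ∨ σ = -1) ∧
    (2 * w + 1 = N (i + 1) ∨ 2 * w - 1 = N (i + 1)) ∧ |r i (ξ - x)| = w - |r i x| ∧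
    ∀ m : ℤ, 0 < |r i x| + m → 2 * (|r i x| + m) < N (i + 1) →
      V i x (σ * m) = ψ i (((|r i x| + m : ℤ)) : ℝ) - ψ i ((w - |r i x| - m : ℤ) : ℝ)
        - (ψ i ((|r i x| : ℤ) : ℝ) - ψ i ((w - |r i x| : ℤ) : ℝ)) := by
  obtain ⟨σ, w, h1, h2, h3, h4⟩ := shift (e (i + 1)) x
  rw [← N_def] at h2
  rw [← r_def, ← r_def] at h3
  refine ⟨σ, w, h1, h2, h3, fun m hm1 hm2 => ?_⟩
  rw [N_def, r_def] at hm2
  rw [r_def] at hm1
  obtain ⟨h5, h6⟩ := h4 m hm1 hm2
  rw [← r_def, ← r_def] at h5 h6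
  unfold V G
  rw [h5, h6, h3]

lemma far_cast (i : ℕ) {t : ℤ} (h : N i ≤ 2 * t) : ψ i (t : ℝ) = H i + δ i * t := by
  apply ψ_far
  exact_mod_cast h

lemma abs_sign_mul (σ m : ℤ) (h : σ = 1 ∨ σ = -1) : |σ * m| = |m| := by
  rcases h with h | h <;> rw [h]
  · rw [one_mul]
  · rw [neg_one_mul, abs_neg]

lemma ε_le_one (i : ℕ) : ε i ≤ 1 := by
  unfold ε
  exact pow_le_one₀ (by norm_num) (by norm_num)

lemma ε_mul (i : ℕ) : ε i * 3 ^ i = 1 := by
  unfold ε
  rw [← mul_pow]; norm_num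

/-- moving up from the low region. -/
lemma up (i : ℕ) (x : ℤ_[3]) (hx : Low i x) (y : ℝ) (h1 : H i + 2 ≤ y) (h2 : y ≤ 3 * H (i + 1)) :
    ∃ n : ℤ, N i ∣ n ∧ |n| ≤ R i ∧ |V i x n - y| ≤ 2 * ε i := by
  obtain ⟨σ, w, hσ, hw, hv, hV⟩ := shiftV i x
  unfold Low at hx
  set u := |r i x| with hu
  have hu0 : 0 ≤ u := abs_nonneg _
  have hP := P_pos i
  have hNP := N_le_P i
  have hN1 := N_succ_ge i
  have hN := N_pos i
  have hε := ε_pos i
  have h2ε : 0 < 2 * ε i := by linarith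
  have hε1 := ε_le_one i
  set h0 : ℝ := H i - min (a i * u) (H i) with hh0
  have h0nn : 0 ≤ h0 := by
    have := min_le_right (a i * u) (H i)
    linarith
  have h0H : h0 ≤ H i := by
    have : 0 ≤ min (a i * u) (H i) := by
      apply le_min _ (H_pos i).le
      exact mul_nonneg (a_pos i).le (by exact_mod_cast hu0)
    linarith
  set k : ℤ := ⌊(y - h0) / (2 * ε i)⌋ with hk
  have hk1 : (k : ℝ) ≤ (y - h0) / (2 * ε i) := Int.floor_le _
  have hk2 : (y - h0) / (2 * ε i) < k + 1 := Int.lt_floor_add_one _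
  have hkpos : 1 ≤ k := by
    rw [hk, Int.le_floor, le_div_iff₀ h2ε]
    push_cast
    linarith
  have hkle : k ≤ 243 * 3 ^ (2 * i) := by
    have : (k : ℝ) ≤ 243 * 3 ^ (2 * i) := by
      refine hk1.trans ?_
      rw [div_le_iff₀ h2ε]
      have e1 : (243 : ℝ) * 3 ^ (2 * i) * (2 * ε i) = 486 * 3 ^ i := by
        rw [two_mul i, pow_add]
        calc (243 : ℝ) * (3 ^ i * 3 ^ i) * (2 * ε i) = 486 * 3 ^ i * (ε i * 3 ^ i) := by ring
          _ = _ := by rw [ε_mul, mul_one]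
      rw [e1]
      have e2 : 3 * H (i + 1) = 243 * 3 ^ i := by
        unfold H
        rw [pow_add, pow_add]; norm_num; ring
      have : (0 : ℝ) < 3 ^ i := pow_pos (by norm_num) _
      linarith
    exact_mod_cast this
  have hm : N i * k ≤ 243 * P i := by
    unfold P
    calc N i * k ≤ N i * (243 * 3 ^ (2 * i)) := mul_le_mul_of_nonneg_left hkle hN.le
      _ = _ := by ring
  have hm1 : N i ≤ N i * k := by nlinarith
  have hfin := hV (N i * k) (by linarith) (by linarith)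
  refine ⟨σ * (N i * k), ?_, ?_, ?_⟩
  · exact Dvd.dvd.mul_left (dvd_mul_right _ _) _
  · rw [abs_sign_mul _ _ hσ, abs_of_nonneg (by linarith), R_eq]
    linarith
  · rw [hfin, far_cast i (t := u + N i * k) (by linarith),
      far_cast i (t := w - u - N i * k) (by rcases hw with hw | hw <;> linarith),
      far_cast i (t := w - u) (by rcases hw with hw | hw <;> linarith)]
    have e3 : ψ i (u : ℝ) = min (a i * u) (H i) + δ i * u := by unfold ψ; rfl
    rw [e3]
    push_cast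
    have e4 : H i + δ i * ((u : ℝ) + N i * k) - (H i + δ i * (w - u - N i * k)) -
        (min (a i * u) (H i) + δ i * u - (H i + δ i * (w - u))) - y =
        2 * (δ i * N i) * k - (y - h0) := by
      rw [hh0]; ring
    rw [e4, δ_mul]
    rw [lt_iff_not_ge] at hk2
    have hk3 : (y - h0) < (k + 1) * (2 * ε i) := by
      rw [← div_lt_iff₀ h2ε]
      exact lt_of_not_ge hk2
    have hk4 : (k : ℝ) * (2 * ε i) ≤ y - h0 := by
      rw [← le_div_iff₀ h2ε]
      exact hk1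
    rw [abs_le]
    constructor <;> linarith

/-- moving down from the high region. -/
lemma down (i : ℕ) (x : ℤ_[3]) (hx : Low i (ξ - x)) (y : ℝ) (h1 : H i + 2 ≤ y)
    (h2 : y ≤ 3 * H (i + 1)) :
    ∃ n : ℤ, N i ∣ n ∧ |n| ≤ R i ∧ |V i x n + y| ≤ 2 * ε i := by
  obtain ⟨n, hn1, hn2, hn3⟩ := up i (ξ - x) hx y h1 h2
  refine ⟨-n, (dvd_neg).2 hn1, by rwa [abs_neg], ?_⟩
  rw [V_xi] at hn3
  have : V i x (-n) + y = -(-V i x (-n) - y) := by ring
  rw [this, abs_neg]
  exact hn3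

/-- the middle region: all small values are reached. -/
lemma mid (i : ℕ) (x : ℤ_[3]) (hx : ¬ Low i x) (hx' : ¬ Low i (ξ - x)) (y : ℝ)
    (h : |y| ≤ 3 ^ i) :
    ∃ n : ℤ, N i ∣ n ∧ |n| ≤ R i ∧ |V i x n - y| ≤ 2 * ε i := by
  obtain ⟨σ, w, hσ, hw, hv, hV⟩ := shiftV i x
  unfold Low at hx hx'
  rw [hv] at hx'
  rw [not_le] at hx hx'
  set u := |r i x| with hu
  have hP := P_pos i
  have hNP := N_le_P i
  have hN1 := N_succ_ge i
  have hN := N_pos i
  have hε := ε_pos i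
  have h2ε : 0 < 2 * ε i := by linarith
  have hε1 := ε_le_one i
  set k : ℤ := ⌊y / (2 * ε i)⌋ with hk
  have hk1 : (k : ℝ) ≤ y / (2 * ε i) := Int.floor_le _
  have hk2 : y / (2 * ε i) < k + 1 := Int.lt_floor_add_one _
  have hk3 : y < (k + 1) * (2 * ε i) := by
    rw [← div_lt_iff₀ h2ε]
    exact hk2
  have hk4 : (k : ℝ) * (2 * ε i) ≤ y := by
    rw [← le_div_iff₀ h2ε]
    exact hk1
  have hε3 : ε i * 3 ^ i = 1 := ε_mul i
  have h3i : (1 : ℝ) ≤ 3 ^ i := one_le_pow₀ (by norm_num)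
  rw [abs_le] at h
  have hkle : |(k : ℝ)| ≤ 2 * 3 ^ (2 * i) := by
    have e1 : (3 : ℝ) ^ (2 * i) = 3 ^ i * 3 ^ i := by rw [two_mul, pow_add]
    rw [e1, abs_le]
    constructor
    · have h5 : (k : ℝ) + 1 > y / (2 * ε i) := hk2
      have h6 : -(3 ^ i * 3 ^ i) ≤ y / (2 * ε i) := by
        rw [le_div_iff₀ h2ε]
        have : -(3 ^ i * 3 ^ i) * (2 * ε i) = -(2 * (ε i * 3 ^ i) * 3 ^ i) := by ring
        rw [this, hε3]
        linarith [h.1]
      nlinarith
    · have h6 : y / (2 * ε i) ≤ 3 ^ i * 3 ^ i := by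
        rw [div_le_iff₀ h2ε]
        have : 3 ^ i * 3 ^ i * (2 * ε i) = (2 * (ε i * 3 ^ i) * 3 ^ i) := by ring
        rw [this, hε3]
        linarith [h.2]
      nlinarith
  have hkle' : |k| ≤ 2 * 3 ^ (2 * i) := by exact_mod_cast hkle
  have hm : |N i * k| ≤ 2 * P i := by
    rw [abs_mul, abs_of_pos hN]
    unfold P
    calc N i * |k| ≤ N i * (2 * 3 ^ (2 * i)) := mul_le_mul_of_nonneg_left hkle' hN.le
      _ = _ := by ring
  have hm' := abs_le.1 hm
  have hfin := hV (N i * k) (by linarith [hm'.1]) (by rcases hw with hw | hw <;> linarith [hm'.2])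
  refine ⟨σ * (N i * k), ?_, ?_, ?_⟩
  · exact Dvd.dvd.mul_left (dvd_mul_right _ _) _
  · rw [abs_sign_mul _ _ hσ, R_eq]
    linarith
  · rw [hfin, far_cast i (t := u + N i * k) (by linarith [hm'.1]),
      far_cast i (t := w - u - N i * k) (by linarith [hm'.2]),
      far_cast i (t := w - u) (by linarith), far_cast i (t := u) (by linarith)]
    push_cast
    have e4 : H i + δ i * ((u : ℝ) + N i * k) - (H i + δ i * (w - u - N i * k)) -
        (H i + δ i * u - (H i + δ i * (w - u))) - y =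
        2 * (δ i * N i) * k - y := by
      ring
    rw [e4, δ_mul]
    rw [abs_le]
    constructor <;> linarith

lemma H_succ (i : ℕ) : H (i + 1) = 3 * H i := by
  unfold H
  rw [show i + 1 + 3 = (i + 3) + 1 by ring, pow_succ]; ring

/-- the drop move. -/
lemma drop (i : ℕ) (x : ℤ_[3]) (hx : Low i x) (hx' : Low (i + 1) x)
    (hbig : N (i + 1) < 2 * |r (i + 1) x|) :
    ∃ n : ℤ, N (i + 1) ∣ n ∧ |n| ≤ R (i + 1) ∧ H (i + 1) - 1 ≤ -V (i + 1) x n ∧
      -V (i + 1) x n ≤ H (i + 1) + 2 * H i + 1 := by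
  unfold Low at hx hx'
  have hP := P_pos i
  have hP' := P_pos (i + 1)
  have hNP := N_le_P (i + 1)
  have hN1 := N_succ_ge i
  have hN2 := N_succ_ge (i + 1)
  have hN := N_pos (i + 1)
  set n : ℤ := r i x - r (i + 1) x with hn
  have hd : N (i + 1) ∣ n := by
    have := rr_mod (e (i + 1)) (e (i + 1 + 1)) (e_strictMono.monotone (by omega)) x
    have h2 := (dvd_neg).2 this
    rw [neg_sub, ← N_def, ← r_def, ← r_def] at h2
    exact h2
  have hnle : |n| ≤ |r i x| + |r (i + 1) x| := abs_sub _ _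
  have hrn : r (i + 1) (x + n) = r i x := by
    have h1 := rr_add_of (e (i + 1 + 1)) x n (by
      rw [← r_def, ← N_def]
      have : r (i + 1) x + n = r i x := by
        rw [hn]; ring
      rw [this]
      have h3 := two_abs_r_lt i x
      linarith)
    rw [← r_def, ← r_def] at h1
    rw [h1, hn]
    ring
  set u := |r (i + 1) x| with hu
  set z := |r i x| with hz
  have hz0 : 0 ≤ z := abs_nonneg _
  have s1 := abs_r_add (i + 1) x
  have s2 := abs_r_add (i + 1) (x + n)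
  rw [hrn] at s2
  rw [← hu] at s1
  rw [← hz] at s2
  set v := |r (i + 1) (ξ - x)| with hvdef
  set v' := |r (i + 1) (ξ - (x + n))| with hvdef'
  have hzu : z ≤ u := by linarith
  have hvv : |v' - v - (u - z)| ≤ 1 := by
    rw [abs_le]
    constructor <;> rcases s1 with s1 | s1 <;> rcases s2 with s2 | s2 <;> omega
  refine ⟨n, hd, ?_, ?_⟩
  · rw [R_eq]
    linarith
  have hVval : -V (i + 1) x n = (H (i + 1) + δ (i + 1) * u) - ψ (i + 1) z +
      δ (i + 1) * ((v' : ℝ) - v) := by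
    have e1 : V (i + 1) x n = ψ (i + 1) z - ψ (i + 1) v' - (ψ (i + 1) u - ψ (i + 1) v) := by
      unfold V G
      rw [hrn]
    rw [e1, far_cast (i + 1) (t := u) (by linarith),
      far_cast (i + 1) (t := v) (by rcases s1 with s1 | s1 <;> linarith),
      far_cast (i + 1) (t := v') (by rcases s2 with s2 | s2 <;> linarith)]
    ring
  rw [hVval]
  have hδ := δ_pos (i + 1)
  have ha := a_pos (i + 1)
  have hNR := NR_pos (i + 1)
  have hε1 := ε_le_one (i + 1)
  have hδm := δ_mul (i + 1)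
  have ham := a_mul (i + 1)
  -- small quantities
  have hzR : (z : ℝ) ≤ 9 * P i := by exact_mod_cast hx
  have hzR0 : (0 : ℝ) ≤ z := by exact_mod_cast hz0
  have hNR1 : (10000 : ℝ) * P i ≤ N (i + 1) := by exact_mod_cast hN1
  have hzN : (1000 : ℝ) * z ≤ N (i + 1) := by linarith
  have hψ0 : 0 ≤ ψ (i + 1) z := ψ_nonneg _ hzR0
  have hδz : δ (i + 1) * z ≤ 1 / 1000 := by
    have h1 : δ (i + 1) * (1000 * z) ≤ δ (i + 1) * N (i + 1) := mul_le_mul_of_nonneg_left hzN hδ.le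
    rw [hδm] at h1
    linarith
  have hδ1 : δ (i + 1) ≤ 1 / 1000 := by
    have h1 : (1000 : ℝ) ≤ N (i + 1) := by
      have : (1 : ℝ) ≤ P i := by exact_mod_cast hP
      linarith
    have h2 : δ (i + 1) * 1000 ≤ δ (i + 1) * N (i + 1) := mul_le_mul_of_nonneg_left h1 hδ.le
    rw [hδm] at h2
    linarith
  have haz : a (i + 1) * z ≤ 1 / 2 := by
    -- z ≤ 9 P i, N (i+1) = N i * 3^(10 i + 35)
    have h1 : H (i + 1) * (4 * z) ≤ N (i + 1) := by
      have h2 : H (i + 1) * (4 * (z : ℝ)) ≤ H (i + 1) * (36 * P i) :=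
        mul_le_mul_of_nonneg_left (by linarith) (H_pos _).le
      refine h2.trans ?_
      have h3 : (N (i + 1) : ℝ) = N i * 3 ^ (10 * i + 35) := by
        rw [N_succ]; push_cast; ring
      rw [h3]
      unfold H P
      push_cast
      have h4 : (3 : ℝ) ^ (i + 1 + 3) * (36 * 3 ^ (2 * i)) ≤ 3 ^ (10 * i + 35) := by
        calc (3 : ℝ) ^ (i + 1 + 3) * (36 * 3 ^ (2 * i))
            ≤ 3 ^ (i + 1 + 3) * (3 ^ 4 * 3 ^ (2 * i)) := by
              apply mul_le_mul_of_nonneg_left _ (pow_nonneg (by norm_num) _)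
              apply mul_le_mul_of_nonneg_right _ (pow_nonneg (by norm_num) _)
              norm_num
          _ = 3 ^ (3 * i + 8) := by
              rw [← pow_add, ← pow_add]
              congr 1
              ring
          _ ≤ _ := pow_le_pow_right₀ (by norm_num) (by omega)
      have := NR_pos i
      nlinarith
    have h5 : a (i + 1) * (z * N (i + 1)) = 2 * H (i + 1) * z := by
      rw [mul_comm (z : ℝ), ← mul_assoc, ham]
    have h6 : a (i + 1) * z * N (i + 1) ≤ 1 / 2 * N (i + 1) := by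
      rw [mul_assoc, h5]
      linarith
    exact le_of_mul_le_mul_right h6 hNR
  have hψ1 : ψ (i + 1) z ≤ 1 / 2 + 1 / 1000 := by
    refine (ψ_le (i + 1)).trans ?_
    rw [add_mul]
    linarith
  have huR : (u : ℝ) ≤ 9 * P (i + 1) := by exact_mod_cast hx'
  have hzuR : (z : ℝ) ≤ u := by exact_mod_cast hzu
  have hvvR : |(v' : ℝ) - v - (u - z)| ≤ 1 := by exact_mod_cast hvv
  have hδu : δ (i + 1) * u ≤ H i := by
    have h1 : δ (i + 1) * u ≤ δ (i + 1) * (9 * P (i + 1)) := mul_le_mul_of_nonneg_left huR hδ.le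
    refine h1.trans (le_of_eq ?_)
    have h2 : (P (i + 1) : ℝ) = 3 ^ (2 * (i + 1)) * N (i + 1) := by
      unfold P; push_cast; ring
    have h3 := ε_mul (i + 1)
    rw [h2]
    calc δ (i + 1) * (9 * (3 ^ (2 * (i + 1)) * (N (i + 1) : ℝ)))
        = 9 * 3 ^ (2 * (i + 1)) * (δ (i + 1) * N (i + 1)) := by ring
      _ = 9 * 3 ^ (2 * (i + 1)) * ε (i + 1) := by rw [hδm]
      _ = 9 * 3 ^ (i + 1) * (ε (i + 1) * 3 ^ (i + 1)) := by rw [two_mul, pow_add]; ring
      _ = H i := by rw [h3]; unfold H; rw [pow_add, pow_add]; norm_num; ring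
  have hδu0 : 0 ≤ δ (i + 1) * (u - z) := mul_nonneg hδ.le (by linarith)
  rw [abs_le] at hvvR
  have hlow : δ (i + 1) * ((u : ℝ) - z) - δ (i + 1) ≤ δ (i + 1) * ((v' : ℝ) - v) := by
    have : δ (i + 1) * ((u : ℝ) - z - 1) ≤ δ (i + 1) * ((v' : ℝ) - v) :=
      mul_le_mul_of_nonneg_left (by linarith [hvvR.1]) hδ.le
    linarith
  have hupp : δ (i + 1) * ((v' : ℝ) - v) ≤ δ (i + 1) * ((u : ℝ) - z) + δ (i + 1) := by
    have : δ (i + 1) * ((v' : ℝ) - v) ≤ δ (i + 1) * ((u : ℝ) - z + 1) :=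
      mul_le_mul_of_nonneg_left (by linarith [hvvR.2]) hδ.le
    linarith
  have hδz0 : 0 ≤ δ (i + 1) * z := mul_nonneg hδ.le hzR0
  have hδu1 : 0 ≤ δ (i + 1) * u := mul_nonneg hδ.le (by linarith)
  constructor
  · linarith
  · rw [mul_sub] at hupp
    linarith

end Q67.CY
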